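import Pool.Agent.TH412.PF.Stmt
import Pool.Agent.TH412.PF.JoinC
import Pool.Agent.TH412.PF.Table
import Pool.Agent.TH412.PF.Perm
import Pool.Agent.TH412.PF.Leaf
import Pool.Agent.TH412.PF.Three
import Pool.Agent.TH412.PF.Red

/-!
Tutte's conjecture on tangential 2-blocks for the cographic matroids of graphs of carving width at
most five.

A carving of a graph is a binary tree whose leaves are the vertices; its width is the largest number
of edges that leave the set of leaves of a subtree. Proof. A nowhere-zero flow with values in the
group of order four is a colouring of the edges by three colours with a parity condition at each
vertex. Cuts of size two are reduced by merging one side into an end of a cut edge; this does not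
increase the width and does not create Petersen minors. In a graph without cuts of size less than
three each subtree gives a piece with three, four or five outgoing edges. For such a piece we record
which colourings of the outgoing edges extend to the piece, and some rooted graphs (parts of the
Petersen graph) which are minors of the piece. Thirteen pairs of a set of colourings and a list of
rooted graphs (1, 4, 8 pairs for 3, 4, 5 outgoing edges) suffice: for each gluing of two pieces that
have pairs from the list, either the two pieces and the rest of the graph give a Petersen minor, or
the union has a pair from the list. The 39087 gluings are checked by the kernel with explicit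
witnesses.
-/

set_option autoImplicit false

open Finset

namespace Pool.Agent.Results.MP_aa6b05_co.CarvingWidthFive

open Pool.Agent.TH412.PF

/-- Let `G` be a finite graph with loops and parallel edges allowed, given by the two ends `s e` and
`t e` of each edge `e`. Assume that no set of vertices is left by exactly one edge (no isthmus), that
`G` has no Petersen minor, and that some binary tree `T` whose leaves are labelled bijectively by the
vertices has width at most five: for each subtree at most five edges leave the set of its leaves.
Then the edge set is the union of two elements of the cycle space (`G` has a nowhere-zero 4-flow), and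
the cographic matroid of `G` is not a 2-block over `GF(2)`: for every matrix `A` over `GF(2)` that
represents it, some linear map to the plane over `GF(2)`, given by a matrix `B`, is nonzero at all
columns of `A`. -/
theorem result (V E : Type) [Fintype V] [Fintype E] (s t : E → V)
    (hbridge : ∀ Z : Set V, (cut s t Z).card ≠ 1) (hpet : ¬ HasPetersenMinor s t)
    (hwidth : ∃ T : Tr V, T.set = Set.univ ∧ T.Nodup ∧ T.Width s t 5) :
    (∃ x y : E → ZMod 2, IsCycle s t x ∧ IsCycle s t y ∧ ∀ e, x e ≠ 0 ∨ y e ≠ 0) ∧
      ∀ (r : ℕ) (A : Matrix (Fin r) E (ZMod 2)), Represents s t A →
        ∃ B : Matrix (Fin 2) (Fin r) (ZMod 2), ∀ e, ∃ j, ∑ i, B j i * A i e ≠ 0 := by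
  obtain ⟨T, hT, hN, hW⟩ := hwidth
  have htab : StmTable := fun a b m n ha hab hb hm hn hmn => table a b m n ha hab hb hm hn hmn
  obtain ⟨f, hf⟩ := red act trans (three leaf (join act htab)) V E s t T hN hW (fun e => by
    rw [hT]; exact ⟨Set.mem_univ _, Set.mem_univ _⟩) (fun h => hpet (hasPet_imp s t h)) hbridge
  rw [hT] at hf
  exact fin_cover s t f hf

end Pool.Agent.Results.MP_aa6b05_co.CarvingWidthFive
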