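import Pool.Agent.TH362.TF.Main
import Pool.Agent.TH362.TF.Multi
import Pool.Agent.TH362.TF.Cyc
import Pool.Agent.TH362.TF.Bond
import Pool.Agent.TH362.TF.Rank
import Pool.Agent.TH362.TP.Fin12
import Pool.Agent.TH362.TP.Tri

/-!
Cographic tangential 2-blocks over the field with two elements which come from a graph with at most
sixteen vertices of odd degree, or have rank at most nine, or have at most twelve triangles.
-/

set_option autoImplicit false

namespace Pool.Agent.Results.MP_aa6b05_co.CographicSixteenTwelve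

open Pool.Agent.TH362.Multi

/-- Let `S` be a set of nonzero vectors over the field with two elements that is a 2-block, while
no proper subset of `S` is a 2-block (in particular, let `S` be a tangential 2-block), and let the
binary matroid of `S` be the bond matroid of a finite multigraph `s t : E → V`. If at most sixteen
vertices have odd degree, or if the rank of `S` is at most nine, or if `S` contains at most twelve
triangles (sets of three vectors with sum zero), then `S` is the bond matroid of the Petersen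
graph. -/
theorem result (n : ℕ) (S : Set (Fin n → ZMod 2)) (V E : Type) [Fintype V] [DecidableEq V]
    [Fintype E] [DecidableEq E] (s t : E → V) (hr : RepresentsBondMatroid s t n S)
    (h0 : (0 : Fin n → ZMod 2) ∉ S)
    (h1 : ¬ ∃ L : (Fin n → ZMod 2) →ₗ[ZMod 2] (Fin 2 → ZMod 2), ∀ x ∈ S, L x ≠ 0)
    (h2 : ∀ T : Set (Fin n → ZMod 2), T ⊆ S → T ≠ S →
      ∃ L : (Fin n → ZMod 2) →ₗ[ZMod 2] (Fin 2 → ZMod 2), ∀ x ∈ T, L x ≠ 0)
    (h3 : {v | Odd (degree s t Set.univ v)}.ncard ≤ 16 ∨
      Module.finrank (ZMod 2) (Submodule.span (ZMod 2) S) ≤ 9 ∨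
      {T : Finset (Fin n → ZMod 2) | ↑T ⊆ S ∧ T.card = 3 ∧ ∑ x ∈ T, x = 0}.ncard ≤ 12) :
    ∃ ψ : (Fin 15 → ZMod 2) →ₗ[ZMod 2] (Fin n → ZMod 2),
      LinearMap.ker ψ = Submodule.span (ZMod 2) (Set.range (fun v : Fin 10 => fun k : Fin 15 =>
        if (![0,1,2,3,4,5,6,7,8,9,0,1,2,3,4] : Fin 15 → Fin 10) k = v ∨
           (![1,2,3,4,0,7,8,9,5,6,5,6,7,8,9] : Fin 15 → Fin 10) k = v
        then (1 : ZMod 2) else 0)) ∧
      ⇑ψ '' Set.range (fun k : Fin 15 => (Pi.single k (1 : ZMod 2) : Fin 15 → ZMod 2)) = S := by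
  refine TH362.TF.bond s t (fun hn => ?_) n S hr h0 h1 h2
  rcases h3 with h3 | h3 | h3
  · exact TH362.TF.main16 s t Finset.univ hn (by rw [TH362.TF.odd_card]; exact h3)
  · exact TH362.TF.main16 s t Finset.univ hn (TH362.TF.rank_odd s t n S hr h0 h3)
  · exact TH362.TP.cuts12 s t Finset.univ hn
      ((TH362.TP.cuts3_le_triangles s t n S hr).trans h3)
      (fun s' t' S' => TH362.TF.main16 s' t' S')

end Pool.Agent.Results.MP_aa6b05_co.CographicSixteenTwelve
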